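import Pool.Agent.Helper7K9.FI.Fid

/-!
# The index of the absolutely Hodge classes in the Hodge classes is finite

Let `T` be a Hodge theory on a class of smooth projective varieties (in the intended use the
varieties are all smooth projective complex varieties, or those over an algebraically closed
subfield, and `T` is `X ↦ H(X, ℚ)`), and `D` a family of conjugate theories `T' i` with comparison
isomorphisms `a` with coefficients `L i a` (the theories `X ↦ H(X^σ, ℚ)` for the automorphisms `σ`
of `ℂ`, with the comparison isomorphisms given by de Rham cohomology and by `ℓ`-adic cohomology for
all primes `ℓ`).

Let `X` be a variety of dimension `d` such that all Hodge classes of middle degree on `X⁴`, that is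
in `H^(4d)(X⁴, ℚ)`, are absolutely Hodge, and suppose that there are no central classes on `X × X`:
a Hodge class `z` in `H^(2d)(X × X, ℚ)` which acts on `H(X, ℚ)` as a derivation of the ring, is skew
for the Poincaré duality and commutes with all Hodge classes in `H^(2d)(X × X, ℚ)` vanishes. We
prove that the index is finite: there is a natural number `N ≥ 1` such that, for `n → ∞`, the
quotients of the dimension of the space of all Hodge classes on `X^n` by the dimension of the space
of the absolutely Hodge classes converge to `N`. Moreover for each conjugate theory all coefficients
of the images of all Hodge classes on all powers of `X` under the comparison isomorphisms can be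
given by the same `N` elements (which span a ring over the rational numbers), and all Hodge classes
on all powers of `X` are obtained from the absolutely Hodge classes and from at most `N - 1` further
Hodge classes by absolutely Hodge correspondences.

The proof: the Lie algebra of the Hodge group is cut out of `H(X × X, ℚ)` by a projector which is
given by a Hodge class of middle degree on `X⁴`. It is absolutely Hodge by assumption, and
since there are no central classes the skew derivations of degree `0` which kill all absolutely
Hodge classes on all powers of `X` kill all Hodge classes. Let `G` be the group of the automorphisms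
of `H(X, ℂ)` which respect the degrees and the trace form and fix all absolutely Hodge classes
on all powers of `X`. It is an algebraic group. For each extension `κ` of `ℂ` and each derivation of
`κ` over `ℚ` the logarithmic derivative of a point of `G` with coordinates in `κ` is such a skew
derivation, hence the points of `G` over `κ` map the Hodge classes to classes with coordinates in
`ℂ`. Applied to the generic points of the components of `G` this shows that `G` acts on all spaces
of Hodge classes through finitely many maps. On the other hand the classes fixed by `G` are linear
combinations of absolutely Hodge classes, since `G` contains the quotients of the comparison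
isomorphisms, the operators `t^(p - q)` of `T` and of all `T' i` and the quotients of their
conjugates. It follows that the dimension of the space of Hodge classes on `X^n` is bounded by a
multiple of the dimension of the space of absolutely Hodge classes on `X^(n + m)` for some `m`, so
that the index, which exists in `ℕ ∪ {∞}` by the index law, is finite.
-/

open CategoryTheory AlgebraicGeometry

universe u

namespace Pool.Agent.Results.MP_4e1cf2_ag.FiniteIndex

open Pool.Agent.H914 Pool.Agent.H914.VarClass.Obj Pool.Agent.Y121.AHS Pool.Agent.Y121.AHS.Full
open Pool.Agent.Y133.Half (pw)

variable {k : Type u} [Field k] {𝒱 : VarClass k} {ops : CycleOps 𝒱}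

/-- The action `a ↦ pr₂_* (z · pr₁^* a)` of the class `z` on `X × X` on the cohomology of `X`. -/
noncomputable def act {T : HodgeTheory ops} {X : 𝒱.Obj} (z : T.W.H (X.prod X))
    (a : HL T.W ℂ X) : HL T.W ℂ X :=
  pushL (snd X X) (mulL (emL T.W ℂ z) (mapL (fst X X) a))

/-- The Hodge class `z` of middle degree on `X × X` acts on the cohomology of `X` as a derivation of
the ring which is skew for the Poincaré duality and which commutes with the action of all Hodge
classes of middle degree on `X × X`. -/
def IsCentral {T : HodgeTheory ops} {X : 𝒱.Obj} (z : T.W.H (X.prod X)) : Prop :=
  IsHodge T (X.prod X) X.dim z ∧
    (∀ a b, trL (mulL (act z a) b + mulL a (act z b)) = 0) ∧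
    (∀ a b, act z (mulL a b) = mulL (act z a) b + mulL a (act z b)) ∧
    ∀ z', IsHodge T (X.prod X) X.dim z' → ∀ a, act z (act z' a) = act z' (act z a)

/-- The finiteness of the index: `pw X n` is the product of `n + 1` copies of `X`. -/
theorem result (T : HodgeTheory ops) (D : Full.Conjugates T) (X : 𝒱.Obj)
    [Nontrivial (T.W.H X)]
    (h4 : ∀ c, IsHodge T (pw X 3) (2 * X.dim) c → Full.IsAbsHodge D (pw X 3) (2 * X.dim) c)
    (hz : ∀ z : T.W.H (X.prod X), IsCentral z → z = 0) :
    ∃ N : ℕ, 1 ≤ N ∧
      HasIndex (fun n => hodgeDim T (pw X n)) (fun n => Full.absDim D (pw X n)) N ∧
      (∀ i, ∃ e : Fin N → ∀ a, D.L i a, SpansRing e ∧ ∀ n j, GivenBy D i e (pw X n) j) ∧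
      FewGenerators D X N :=
  Pool.Agent.Helper7K9.FI.finite_index T D X h4 hz

end Pool.Agent.Results.MP_4e1cf2_ag.FiniteIndex
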