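import Pool.Agent.Helper7K9.FP.Mid
import Pool.Agent.Helper7K9.FP.Fin

/-!
# The Hodge classes of middle degree on the fourth power

Let `T` be a Hodge theory on a class of smooth projective varieties (in the intended use the
varieties are all smooth projective complex varieties, or those over an algebraically closed
subfield, and `T` is `X ↦ H(X, ℚ)`), and `D` a family of conjugate theories `T' i` with comparison
isomorphisms `a` with coefficients `L i a` (the theories `X ↦ H(X^σ, ℚ)` for the automorphisms `σ`
of `ℂ`, with the comparison isomorphisms given by de Rham cohomology and by `ℓ`-adic cohomology for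
all primes `ℓ`; the one given by de Rham cohomology respects the Hodge filtration).

Let `X` be a variety of dimension `d` such that all Hodge classes of middle degree on `X⁴`, that is
in `H^(4d)(X⁴, ℚ)`, are absolutely Hodge. We prove that for all `σ` and all `n` every Hodge class
on `X^n` is mapped by all comparison isomorphisms, both for de Rham cohomology and for `ℓ`-adic
cohomology, to a linear combination of Hodge classes on `(X^σ)^n` with coefficients in `ℂ` or
`ℚ_ℓ`, respectively.

The proof: the Lie algebra of the Hodge group (the operators on `H(X, ℚ)` which act as derivations
and kill all Hodge classes on all powers of `X`) is cut out of `H(X × X, ℚ)` by a projector which is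
given by a Hodge class of middle degree on `X⁴`. This projector is absolutely Hodge by assumption,
hence the operators which kill the absolutely Hodge classes are sums of an element of the Lie
algebra and of a Hodge class on `X × X`, and they are in the Lie algebra if certain pairings
with Hodge classes on `X × X` vanish. This is applied to the conjugates of the operator
`p - q` of `X^σ` under all comparison isomorphisms and automorphisms of `ℂ`. The pairings of the
conjugate under the de Rham comparison vanish since it differs from the operator `p - q` of `X` by
a nilpotent operator, and the pairings do not depend on the comparison isomorphism.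
-/

open CategoryTheory AlgebraicGeometry

universe u

namespace Pool.Agent.Results.MP_4e1cf2_ag.FourthPower

open Pool.Agent.H914 Pool.Agent.Y121.AHS Pool.Agent.Y121.AHS.Full
open Pool.Agent.Y133.Half (pw)
open Pool.Agent.Helper7K9.FP (RespFil)

variable {k : Type u} [Field k] {𝒱 : VarClass k} {ops : CycleOps 𝒱}

/-- The fourth power theorem: `pw X n` is the product of `n + 1` copies of `X`. -/
theorem result (T : HodgeTheory ops) (D : Full.Conjugates T) (X : 𝒱.Obj)
    (h4 : ∀ c, IsHodge T (pw X 3) (2 * X.dim) c → Full.IsAbsHodge D (pw X 3) (2 * X.dim) c)
    (i : D.ι) (a₀ : D.J i) (h0 : RespFil (D.cmp i a₀)) (a : D.J i) (n j : ℕ)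
    (c : T.W.H (pw X n)) (hc : IsHodge T (pw X n) j c) :
    ∃ w ∈ hodgeSums (D.T' i) (D.L i a) Set.univ (pw X n) j, (D.cmp i a).Maps j c w :=
  Pool.Agent.Helper7K9.FP.fourth (Pool.Agent.Helper7K9.FP.mid_main _
    (Pool.Agent.Helper7K9.FP.prj _)) h4 i a₀ h0 a n j c hc

end Pool.Agent.Results.MP_4e1cf2_ag.FourthPower
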