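import Pool.Agent.Helper85K9.AH.Fin

/-!
# Hodge classes on the products of an arbitrary variety and hyperelliptic curves

Let `f ∈ ℚ[X]` be monic of even degree `n = 2g ≥ 2` with `n` distinct real roots, all different from `0`, and let `C(z)` be
the curve `y² = f(x) (x - z)` of genus `g`, for real `z` in the gap of `0` between the roots. Let `Z` be an ARBITRARY smooth
projective variety, `W` the rational vector space `⨁_i H^i(Z)` with the grading of `W_ℂ` by the first Hodge index,
`d = dim W`. We prove: (1) for all sufficiently large `G` there is an exponent `E`, independent of `Z`, such that for all `H`,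
`t` with `(H + 2)^E ≤ t` all tuples of different curves `C_1, …, C_k` in the window `z = 1 / (t - G u)`, `1 ≤ u ≤ H`, outside
a set of exceptional `u` with at most `g (2g + 1) + 1 + d² / (g (2g + 1))` elements have the property that every Hodge class on
`Z^j × ∏_i C_i^{r_i}` is a combination of products of Hodge classes on `Z^j`, of the classes of the diagonals of the `C_i` and
of the classes of points; (2) for all `k` and `d` there are `δ > 0` and `K` such that for all `Z` with `dim W = d` and all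
`T ≥ 1` all but at most `K T^(k - δ)` of the `k`-tuples of curves at the points `(1 / t_1, …, 1 / t_k)`, `t_i ≤ T`, have this
property. So if all Hodge classes on the powers of `Z` are absolute Hodge then so are all Hodge classes on `Z^j × ∏_i C_i^{r_i}`
and on the products of powers of `Z` and of the Jacobians of the `C_i`. Nothing is assumed: the Hodge structures are defined by
the integrals, and the theorem `polarised` below proves Riemann's relations for them. -/

set_option autoImplicit false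

open Polynomial

namespace Pool.Agent.Results.MP_4e1cf2_ag.HyperellipticFactor

variable {n : ℕ}

/-- the branch points: `z` inserted at place `m` in the sequence of the `a i` -/
noncomputable def branch (a : Fin n → ℝ) (m : Fin (n + 1)) (z : ℝ) : Fin (n + 1) → ℝ :=
  Fin.insertNth (α := fun _ => ℝ) m z a

/-- the period `∮ x^j dx / y`, `y² = ∏ (x - e i)`, over the loop `γ_l` around the segment `[e l, e (l + 1)]`, that is twice
the integral over the segment (principal branch of the square root) -/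
noncomputable def period (e : Fin (n + 1) → ℝ) (l j : Fin n) : ℂ :=
  2 * ∫ x in (e l.castSucc)..(e l.succ), (x : ℂ) ^ (j : ℕ) / (((∏ i, (x - e i) : ℝ) : ℂ) ^ (1 / 2 : ℂ))

/-- the intersection form of the loops, up to a rational factor: `2 (-1)^r` at `(r, s)`, `|r - s| = 1` -/
def polB (n : ℕ) : Matrix (Fin n) (Fin n) ℚ :=
  Matrix.of fun r s => if (r : ℕ) = s + 1 ∨ (s : ℕ) = r + 1 then 2 * (-1) ^ (r : ℕ) else 0

/-- the field generated by `2πi` and by the periods of the central fibre `y² = f(x) x` -/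
noncomputable def centralField (a : Fin n → ℝ) (m : Fin (n + 1)) : IntermediateField ℚ ℂ :=
  IntermediateField.adjoin ℚ ({2 * Real.pi * Complex.I} ∪ {w | ∃ l j : Fin n, w = period (branch a m 0) l j})

/-- The Hodge structure of weight one `H^1(C(z)) = ℚ^n`, `z` in the gap at place `m`. The coordinates of a class are its
values on the loops `γ_l`. The part `H^{1,0}` (`p = 1`) is spanned by the classes of the holomorphic forms `x^j dx / y`,
`2 j < n`, the part `H^{0,1}` (`p = 0`) by their complex conjugates. -/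
noncomputable def hodge (a : Fin n → ℝ) (m : Fin (n + 1)) (z : ℝ) (p : Fin 2) : Submodule ℂ (Fin n → ℂ) :=
  Submodule.span ℂ {v | ∃ j : Fin n, 2 * (j : ℕ) < n ∧
    v = fun l => if p = 1 then period (branch a m z) l j else star (period (branch a m z) l j)}

/-- The tensors of type `P` in `V_{c 1} ⊗ ⋯ ⊗ V_{c r} ⊗ W^{⊗ j}` (complexified), in coordinates: functions of a multi-index
`J` for the first `r` factors, each of them is `V_i = ℚ^n` with the Hodge decomposition `V i` of weight one for some `i = c a`,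
and of a multi-index `K` for `W^{⊗ j}`, `W = ℚ^d`. They are spanned by the products of vectors `v_a ∈ V_{c a}^{p_a, 1 - p_a}`
and `w_b ∈ W` of degree `q_b` with `∑ p_a + ∑ q_b = P`. If `W` is a Hodge structure and `U q` is the sum of its parts of type
`(q, *)`, the rational tensors of type `P` and weight `2P` are the Hodge classes. -/
def OfType {k d r : ℕ} (V : Fin k → Fin 2 → Submodule ℂ (Fin n → ℂ)) (c : Fin r → Fin k)
    (U : ℤ → Submodule ℂ (Fin d → ℂ)) (j : ℕ) (P : ℤ) : Submodule ℂ ((Fin r → Fin n) → (Fin j → Fin d) → ℂ) :=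
  Submodule.span ℂ {f | ∃ (p : Fin r → Fin 2) (v : Fin r → Fin n → ℂ) (q : Fin j → ℤ) (w : Fin j → Fin d → ℂ),
    (∀ a, v a ∈ V (c a) (p a)) ∧ (∀ b, w b ∈ U (q b)) ∧ ∑ a, ((p a : ℕ) : ℤ) + ∑ b, q b = P ∧
    f = fun J K => (∏ a, v a (J a)) * ∏ b, w b (K b)}

/-- the tensors of type `P` in `W_ℂ^{⊗ j}` -/
def OfTypeW {d : ℕ} (U : ℤ → Submodule ℂ (Fin d → ℂ)) (j : ℕ) (P : ℤ) : Submodule ℂ ((Fin j → Fin d) → ℂ) :=
  Submodule.span ℂ {z | ∃ (q : Fin j → ℤ) (w : Fin j → Fin d → ℂ), (∀ b, w b ∈ U (q b)) ∧ ∑ b, q b = P ∧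
    z = fun K => ∏ b, w b (K b)}

/-- The rational tensors of type `P` in `V_{c 1} ⊗ ⋯ ⊗ V_{c r} ⊗ W^{⊗ j}` which are combinations of products of the
polarisations: `r = 2s`, the first `r` factors are paired by a bijection `e : {1, …, s} × {1, 2} ≃ {1, …, r}` such that the
two factors of each pair have the same colour (are the same `V_i`), on each pair stands the tensor `polB n` in `V_i ⊗ V_i`
(of type `1`, a multiple of the class of the diagonal in `H^1(C_i) ⊗ H^1(C_i)`), and the coefficient `z` is a rational tensor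
of type `P - s` in `W^{⊗ j}`. -/
def Products {n k d r : ℕ} (c : Fin r → Fin k) (U : ℤ → Submodule ℂ (Fin d → ℂ)) (j : ℕ) (P : ℤ) :
    Submodule ℚ ((Fin r → Fin n) → (Fin j → Fin d) → ℚ) :=
  Submodule.span ℚ {f | ∃ (s : ℕ) (e : Fin s × Fin 2 ≃ Fin r) (z : (Fin j → Fin d) → ℚ),
    (∀ l, c (e (l, 0)) = c (e (l, 1))) ∧ (fun K => ((z K : ℚ) : ℂ)) ∈ OfTypeW U j (P - (s : ℤ)) ∧
    f = fun J K => (∏ l, polB n (J (e (l, 0))) (J (e (l, 1)))) * z K}

/-- For all `r`, `j`, `c : {1, …, r} → {1, …, k}` and `P` every rational tensor of type `P` in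
`V_{c 1} ⊗ ⋯ ⊗ V_{c r} ⊗ W^{⊗ j}` is a combination of products of the polarisations on pairs of factors of the same colour
and rational tensors of type `P - r / 2` in `W^{⊗ j}`. -/
def OnlyProducts {k d : ℕ} (V : Fin k → Fin 2 → Submodule ℂ (Fin n → ℂ)) (U : ℤ → Submodule ℂ (Fin d → ℂ)) : Prop :=
  ∀ (r j : ℕ) (c : Fin r → Fin k) (P : ℤ) (T : (Fin r → Fin n) → (Fin j → Fin d) → ℚ),
    (fun J K => ((T J K : ℚ) : ℂ)) ∈ OfType V c U j P → T ∈ Products c U j P

theorem hodge_eq {a : Fin n → ℝ} {m : Fin (n + 1)} {z : ℝ} {P : Matrix (Fin n) (Fin n) ℂ}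
    (hP : P = Matrix.of (period (branch a m z))) (p : Fin 2) : hodge a m z p = Pool.Agent.Helper85K9.AH.hdg P p := by
  subst hP
  rfl

theorem only {k d : ℕ} (hn : Even n) (hn0 : 0 < n) {P : Fin k → Matrix (Fin n) (Fin n) ℂ}
    {V : Fin k → Fin 2 → Submodule ℂ (Fin n → ℂ)} (hV : ∀ i p, V i p = Pool.Agent.Helper85K9.AH.hdg (P i) p)
    {U : ℤ → Submodule ℂ (Fin d → ℂ)}
    (h : Pool.Agent.Helper85K9.AH.TProp (Pool.Agent.Helper85K9.AH.AA n)
      (fun i => Pool.Agent.Helper85K9.AH.hdx (P i)) U) : OnlyProducts V U := by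
  intro r j c q T hT
  have hn2 : 2 ≤ n := by
    obtain ⟨g, hg⟩ := hn
    omega
  have hinv : (Pool.Agent.Helper85K9.AH.AA n)⁻¹ = polB n :=
    Matrix.nonsing_inv_nonsing_inv _ (isUnit_iff_ne_zero.2 (Pool.Agent.Helper85K9.AH.bm_det hn))
  have h1 := h r j c q T (by
    refine Submodule.span_mono ?_ hT
    rintro f ⟨p, v, o, w, hv, hw, hs, rfl⟩
    refine ⟨fun a => (p a : ℕ), v, o, w, fun a => ⟨(p a).2.trans_le hn2, ?_⟩, hw, hs, rfl⟩
    have h2 : Pool.Agent.Helper85K9.AH.hdx (P (c a)) (p a : ℕ) = V (c a) (p a) := by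
      rw [hV]
      exact dif_pos (p a).2
    show v a ∈ Pool.Agent.Helper85K9.AH.hdx (P (c a)) (p a : ℕ)
    rw [h2]
    exact hv a)
  rw [hinv] at h1
  exact h1

/-- Riemann's relations for `C(1 / t)`, `1 / t` in the gap of `0`: the decomposition `H^{1,0} ⊕ H^{0,1}` is a Hodge structure
polarised by `(polB n)⁻¹`. -/
theorem polarised (hn : Even n) {a : Fin n → ℝ} {f : ℚ[X]} (hf : f.map (algebraMap ℚ ℝ) = ∏ i, (X - C (a i)))
    {m : Fin (n + 1)} {t : ℕ} (ht : StrictMono (branch a m (1 / (t : ℝ)))) :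
    (∀ v ∈ hodge a m (1 / (t : ℝ)) 1, ∀ w ∈ hodge a m (1 / (t : ℝ)) 1,
      dotProduct v (Matrix.mulVec ((polB n)⁻¹.map fun x : ℚ => (x : ℂ)) w) = 0) ∧
    (∀ v ∈ hodge a m (1 / (t : ℝ)) 1, v ≠ 0 →
      0 < (Complex.I * dotProduct v (Matrix.mulVec ((polB n)⁻¹.map fun x : ℚ => (x : ℂ)) fun l => star (v l))).re) ∧
    ∀ v, v ∈ hodge a m (1 / (t : ℝ)) 0 ↔ (fun l => star (v l)) ∈ hodge a m (1 / (t : ℝ)) 1 := by
  have hfib := Pool.Agent.Helper85K9.AH.isFib_PT hn hf (m := m) (t := t) ht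
  have hiso := Pool.Agent.Helper85K9.AH.tor_iso hn Pool.Agent.Helper85K9.AH.two_pi_ne
    (Pool.Agent.Helper85K9.AH.PT_tor hn hf (m := m) (t := t) ht) (Pool.Agent.Helper85K9.AH.deg_F hf _).1
    (Pool.Agent.Helper85K9.AH.deg_F hf _).2
  refine ⟨fun v hv w hw => Pool.Agent.Helper85K9.AH.iso1 hfib hiso hv hw, fun v hv hv0 => ?_,
    Pool.Agent.Helper85K9.AH.hdg_star _⟩
  obtain ⟨g, hg⟩ := hn
  obtain ⟨c, hc, rfl⟩ := Pool.Agent.Helper85K9.AH.hdg_comb (Matrix.of (period (branch a m (1 / (t : ℝ))))) hv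
  exact Pool.Agent.Helper85K9.AH.riemann (show n = 2 * g by omega) ht hiso hc fun h0 => hv0 (by
    rw [h0, Matrix.zero_vecMul])

/-- Let `f ∈ ℚ[X]` be monic of even degree `n = 2g ≥ 2` with distinct real roots `a`, all different from `0`; `m` is the place
of `0` among the roots.
(1) For all sufficiently large `G` there is `E` such that for all `H`, `t` with `(H + 2)^E ≤ t` the points `1 / (t - G u)`,
`u ≤ H`, are in the gap of `0` and there is a set `S` whose number of elements is at most the transcendence degree of the field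
of periods of the central fibre `y² = f(x) x` and at most `n (n + 1) / 2 + 1` such that for every `W = ℚ^d` with a `ℤ`-grading
`U` of `W_ℂ` there is a set `S'` with at most `d² / (n (n + 1) / 2)` elements such that for all `k` and all different
`u_1, …, u_k ∈ {1, …, H}` outside `S ∪ S'` and the Hodge structures `V_i = H^1(C(1 / (t - G u_i)))` all rational tensors of
type `P` in `V_{c 1} ⊗ ⋯ ⊗ V_{c r} ⊗ W^{⊗ j}` (all `r`, `j`, `c`, `P`) are combinations of products of the polarisations on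
pairs of factors of the same colour and rational tensors of type `P - r / 2` in `W^{⊗ j}`.
(2) For all `k` and `d` there are `δ > 0` and `K` such that for all `W = ℚ^d` with a `ℤ`-grading `U` of `W_ℂ` and all `T ≥ 1`
there are at most `K T^(k - δ)` tuples `(t_1, …, t_k)` of natural numbers `1 ≤ t_i ≤ T` with `1 / t_i` in the gap of `0` such
that this is false for the Hodge structures `V_i = H^1(C(1 / t_i))`. -/
theorem result (hn : Even n) (hn0 : 0 < n) (a : Fin n → ℝ) (f : ℚ[X])
    (hf : f.map (algebraMap ℚ ℝ) = ∏ i, (X - C (a i))) (m : Fin (n + 1)) (h0 : StrictMono (branch a m 0)) :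
    (∃ G0 : ℕ, ∀ G : ℕ, G0 ≤ G → ∃ E : ℕ, ∀ H t : ℕ, (H + 2) ^ E ≤ t →
      (∀ u : ℕ, u ≤ H → G * u < t ∧ StrictMono (branch a m (1 / ((t : ℝ) - G * u)))) ∧
      ∃ S : Finset ℕ, (S.card : Cardinal) ≤ Algebra.trdeg ℚ (centralField a m) ∧ 2 * S.card ≤ n * (n + 1) + 2 ∧
      ∀ (d : ℕ) (U : ℤ → Submodule ℂ (Fin d → ℂ)), DirectSum.IsInternal U →
      ∃ S' : Finset ℕ, S'.card * (n * (n + 1) / 2) ≤ d ^ 2 ∧
      ∀ (k : ℕ) (u : Fin k → ℕ), Function.Injective u → (∀ i, 1 ≤ u i ∧ u i ≤ H ∧ u i ∉ S ∧ u i ∉ S') →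
        OnlyProducts (fun i => hodge a m (1 / ((t : ℝ) - G * u i))) U) ∧
    ∀ k d : ℕ, ∃ δ K : ℝ, 0 < δ ∧
      ∀ U : ℤ → Submodule ℂ (Fin d → ℂ), DirectSum.IsInternal U → ∀ T : ℕ, 1 ≤ T →
      ({τ : Fin k → ℕ | (∀ i, 1 ≤ τ i ∧ τ i ≤ T ∧ StrictMono (branch a m (1 / (τ i : ℝ)))) ∧
        ¬ OnlyProducts (fun i => hodge a m (1 / (τ i : ℝ))) U}.ncard : ℝ) ≤ K * (T : ℝ) ^ ((k : ℝ) - δ) := by
  have hfield : IntermediateField.adjoin ℚ (Set.range
      (Pool.Agent.Y118.HP.pt (fun _ : Fin 1 => Matrix.of (Pool.Agent.Y118.HP.cper (Pool.Agent.Y118.HP.er a m 0)))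
        (2 * Real.pi * Complex.I))) = centralField a m := by
    unfold centralField
    congr 1
    ext w
    constructor
    · rintro ⟨o, rfl⟩
      rcases o with _ | ⟨i, l, j⟩
      · exact Or.inl rfl
      · exact Or.inr ⟨l, j, rfl⟩
    · rintro (h | ⟨l, j, rfl⟩)
      · exact ⟨none, h.symm⟩
      · exact ⟨some (0, l, j), rfl⟩
  refine ⟨?_, fun k d => ?_⟩
  · obtain ⟨G0, hG0⟩ := Pool.Agent.Helper85K9.AH.windows hn hn0 a f hf m h0
    refine ⟨G0, fun G hG => ?_⟩
    obtain ⟨E, hE⟩ := hG0 G hG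
    refine ⟨E, fun H t ht => ?_⟩
    obtain ⟨h1, S, hS1, hS2, hS3⟩ := hE H t ht
    have hcast : ∀ u : ℕ, u ≤ H → (((t - G * u : ℕ)) : ℝ) = (t : ℝ) - G * u := by
      intro u hu
      rw [Nat.cast_sub (h1 u hu).1.le]
      push_cast
      rfl
    rw [hfield] at hS1
    refine ⟨fun u hu => ⟨(h1 u hu).1, ?_⟩, S, hS1, hS2, fun d U hU => ?_⟩
    · have h2 := (h1 u hu).2
      rw [hcast u hu] at h2
      exact h2
    · obtain ⟨S', hS', h3⟩ := hS3 d U hU
      refine ⟨S', hS', fun k u hu huS => ?_⟩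
      have h4 := h3 k u hu huS (fun i => Pool.Agent.Helper85K9.AH.hdx (Pool.Agent.Helper85K9.AH.PT a m (t - G * u i)))
        (fun i => Pool.Agent.Helper85K9.AH.isFib_PT hn hf (h1 (u i) (huS i).2.1).2)
      have h5 : ∀ i, Pool.Agent.Helper85K9.AH.PT a m (t - G * u i) =
          Matrix.of (period (branch a m (1 / ((t : ℝ) - G * u i)))) := by
        intro i
        unfold Pool.Agent.Helper85K9.AH.PT
        rw [hcast (u i) (huS i).2.1]
        rfl
      exact only hn hn0 (P := fun i => Pool.Agent.Helper85K9.AH.PT a m (t - G * u i)) (fun i p => hodge_eq (h5 i) p) h4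
  · obtain ⟨δ, K, hδ, hK⟩ := Pool.Agent.Helper85K9.AH.count hn hn0 a f hf m h0 k d
    refine ⟨δ, K, hδ, fun U hU T hT => le_trans ?_ (hK U hU T hT)⟩
    refine Nat.cast_le.2 (Set.ncard_le_ncard ?_ ((Set.finite_Iic (fun _ => T : Fin k → ℕ)).subset fun τ hτ => fun i => hτ.1 i))
    rintro τ ⟨hτ, hno⟩
    have h5 : ∀ i, Pool.Agent.Helper85K9.AH.PT a m (τ i) = Matrix.of (period (branch a m (1 / (τ i : ℝ)))) := by
      intro i
      unfold Pool.Agent.Helper85K9.AH.PT
      rfl
    exact ⟨fun i => (hτ i).2.1, fun i => Pool.Agent.Helper85K9.AH.hdx (Pool.Agent.Helper85K9.AH.PT a m (τ i)),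
      fun i => ⟨(hτ i).2.2, Pool.Agent.Helper85K9.AH.isFib_PT hn hf (hτ i).2.2⟩,
      fun h => hno (only hn hn0 (P := fun i => Pool.Agent.Helper85K9.AH.PT a m (τ i)) (fun i p => hodge_eq (h5 i) p) h)⟩

end Pool.Agent.Results.MP_4e1cf2_ag.HyperellipticFactor
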