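import Pool.Agent.Helper7K9.FP.Num

/-!
# Number fields of coefficients from the Hodge classes of middle degree on the fourth power

Let `T` be a Hodge theory on a class of smooth projective varieties (in the intended use the
varieties are all smooth projective complex varieties, or those over an algebraically closed
subfield, and `T` is `X ↦ H(X, ℚ)`), and `D` a family of conjugate theories `T' i` with comparison
isomorphisms `a` with coefficients `L i a` (the theories `X ↦ H(X^σ, ℚ)` for the automorphisms `σ`
of `ℂ`, with the comparison isomorphisms given by de Rham cohomology and by `ℓ`-adic cohomology for
all primes `ℓ`).

Let `X` be a variety of dimension `d` such that all Hodge classes of middle degree on `X⁴`, that is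
in `H^(4d)(X⁴, ℚ)`, are absolutely Hodge. Call a Hodge class of middle degree on `X × X` central if
it acts on `H(X, ℚ)` as a derivation, is skew for the Poincaré duality and commutes with the action
of all Hodge classes of middle degree on `X × X`. We prove that for every conjugate theory and every
comparison isomorphism there is one subfield `F` of the coefficients (`ℂ` or `ℚ_ℓ`) of finite degree
over `ℚ` such that for all `n` every Hodge class on `X^n` which is killed by the derivations given
by all central classes is mapped to a linear combination of Hodge classes with coefficients in `F`.
If there is no central class different from zero (this is the case if the Hodge group of `X` is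
semisimple), this holds for all Hodge classes on all powers of `X`.

The proof: a derivation of the coefficients and the comparison isomorphism give a derivation of the
cohomology of all varieties which kills the absolutely Hodge classes. Since the projector onto the
Lie algebra of the Hodge group is a Hodge class of middle degree on `X⁴`, it is the sum of an
element of this Lie algebra and of a central class. Hence all derivations of the coefficients kill
the coefficients of the images of the Hodge classes in question, and these coefficients are
algebraic numbers. They are in a finitely generated field.
-/

open CategoryTheory AlgebraicGeometry

universe u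

namespace Pool.Agent.Results.MP_4e1cf2_ag.NumberFieldCoefficients

open Pool.Agent.H914 Pool.Agent.Y121.AHS Pool.Agent.Y121.AHS.Full
open Pool.Agent.Y133.Half (pw)
open Pool.Agent.Helper7K9.FP (IsKilled Preserved)

variable {k : Type u} [Field k] {𝒱 : VarClass k} {ops : CycleOps 𝒱}

/-- Number fields of coefficients: `pw X n` is the product of `n + 1` copies of `X`. -/
theorem result (T : HodgeTheory ops) (D : Full.Conjugates T) (X : 𝒱.Obj)
    (h4 : ∀ c, IsHodge T (pw X 3) (2 * X.dim) c → Full.IsAbsHodge D (pw X 3) (2 * X.dim) c)
    (i : D.ι) (a : D.J i) :
    ForFinite (D.T' i).W.K (D.L i a) fun F => ∀ (n j : ℕ) (b : T.W.H (pw X n)),
      IsHodge T (pw X n) j b → IsKilled b → Preserved (D.cmp i a) F j b :=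
  Pool.Agent.Helper7K9.FP.num_full h4 i a

end Pool.Agent.Results.MP_4e1cf2_ag.NumberFieldCoefficients
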